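import Pool.Agent.TH683.WH.Fin

/-!
# The W-hierarchy is infinite relative to random oracles

The levels of the hierarchy of the parameterized weighted satisfiability problems are the classes
`W[t]`: `W[1]` for 2-CNF and `W[t]` for `Γ_{t,1}`, `t ≥ 2`. Relative to an oracle, `W[t]` is given
by a computation in time `f k * poly |x|`, then a guess of `h k * log |x|` bits, then `t - 1`
alternating quantifiers over strings of at most `log |x|` bits, the first one universal, and then at
most `h k` questions to the oracle of at most `h k * log |x|` bits.

Let `Q` be any oracle, and let `A` be a random oracle (fair coins). Relative to `join Q A`, the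
disjoint union, almost surely, for every `t ≥ 1`: `W[t]` is contained in `W[t + 1]`, and there is a
problem in `W[t + 2]` which is not even in the nonuniform versions of `W[t]` and `A[t]` (where all
the quantifiers are over strings of `g k * log |x|` bits).

So the hierarchy is infinite: of any two consecutive inclusions at least one is strict, and no level
contains all the others.
-/

set_option autoImplicit false

namespace Pool.Agent.Results.MP_39539f_lc.InfiniteHierarchy

open MeasureTheory Pool.Agent.NPC Pool.Agent.H620R2.Gauge
open Pool.Agent.W900.IE (indep)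
open Pool.Agent.TH678.HW (InW1 InW2 Tail)
open Pool.Agent.TH683.WH (Alt InW InWide)

/-- The random oracle: every string is in it with probability `1 / 2`, independently. -/
noncomputable def fair : Measure Oracle := indep (fun _ => ⟨1 / 2, by norm_num, by norm_num⟩)

/-- The disjoint union of the oracles `Q` and `A`. -/
def join (Q A : Oracle) : Oracle
  | [] => false
  | false :: z => Q z
  | true :: z => A z

theorem join_eq : TH680.OD.join = join := by
  funext Q A x
  rcases x with _ | ⟨b, z⟩
  · rfl
  · cases b <;> rfl

/-- The first level is the class `W[1]` of the earlier files. -/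
theorem w1_iff (A : Oracle) (P : Set (List Bool × ℕ)) : InW A 1 P ↔ InW1 A P := Iff.rfl

/-- The second level is the class `W[2]` of the earlier files. -/
theorem w2_iff (A : Oracle) (P : Set (List Bool × ℕ)) : InW A 2 P ↔ InW2 A P := Iff.rfl

/-- `W[t]` is contained in the wide class. -/
theorem wide_of {A : Oracle} {t : ℕ} {P : Set (List Bool × ℕ)} (h : InW A t P) :
    InWide A t P := by
  obtain ⟨π, h, R, M, _, _, hR, hP⟩ := h
  exact ⟨π, h, fun _ => 1, R, M, hR, fun x k => by rw [one_mul]; exact hP x k⟩

/-- **The W-hierarchy is infinite relative to a random oracle, together with any oracle.** -/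
theorem result (Q : Oracle) : ∀ᵐ A ∂fair, ∀ t : ℕ, 1 ≤ t →
    (∀ P, InW (join Q A) t P → InW (join Q A) (t + 1) P) ∧
    (∃ P, InW (join Q A) (t + 2) P ∧ ¬ InWide (join Q A) t P) ∧
    ((∃ P, InW (join Q A) (t + 1) P ∧ ¬ InW (join Q A) t P) ∨
      ∃ P, InW (join Q A) (t + 2) P ∧ ¬ InW (join Q A) (t + 1) P) := by
  rw [← join_eq]
  filter_upwards [TH683.WH.main (fun _ => ⟨1 / 2, by norm_num, by norm_num⟩) (fun _ => rfl) Q]
    with A hA t ht
  obtain ⟨h1, P, h2, h3⟩ := hA t ht
  refine ⟨h1, ⟨P, h2, h3⟩, ?_⟩
  by_cases h4 : InW (TH680.OD.join Q A) (t + 1) P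
  · exact Or.inl ⟨P, h4, fun h5 => h3 (wide_of h5)⟩
  · exact Or.inr ⟨P, h2, h4⟩

end Pool.Agent.Results.MP_39539f_lc.InfiniteHierarchy
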