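import Pool.Agent.TH762.WT.Law

/-!
# The weighted satisfiability hierarchy and exclusion of sorted vectors

`PWSat t` is `p-WSAT(Γ_{t,1})`: `Γ_{1,1}` are the conjunctions of literals, `Γ_{2,1}` the formulas in
conjunctive normal form, `Γ_{3,1}` the conjunctions of disjunctions of conjunctions of literals, and
so on. Fixed-parameter algorithms and fpt-reductions are formalized by a computable precomputation on
the parameter and polynomial time (Mathlib's `Turing.TM2ComputableInPolyTime`); see
`Pool.Agent.TH762.FP.Defs`.

**Theorem.** For every `t ≥ 2` the part of the chain
`p-WSAT(Γ_{1,1}) ≤ p-WSAT(Γ_{1,2}) ≤ p-WSAT(Γ_{2,1}) ≤ ... ≤ p-WSAT(Γ_{t,1})` collapses, that is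
`p-WSAT(Γ_{t,1}) ≤ p-WSAT(Γ_{1,1})`, iff `p-WSAT(Γ_{t,1})` reduces to a parameterized problem `A` about
which one can say anything at all of the following kind. The input consists of `m` instances of `A` of
length at most `n` and with parameters at most `κ`, where `m = m (n, κ)` is any number at most
`f (κ) poly (n)`, and a number `a ≤ f (κ) poly (n)` which depends only on `n` and `κ`; the output,
computed by a fixed-parameter algorithm, is

* a number `c ≤ m` such that the vector of the answers is not `1 ^ c 0 ^ (m - c)`
  (`ExcludeSorted A`), or
* a number `c ≤ m` which is not the number of yes-instances (`ExcludeCount A`), or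
* the number of yes-instances, computed with `⌊log₂ m⌋` adaptive questions to any oracle
  (`FptCountQuestions A`).

Proof. The satisfying assignments of weight `k` whose characteristic vectors are not lexicographically
smaller than a vector `u` are those of the conjunction with the monotone clauses
`x_i ∨ ⋁ {x_j : j < i, u_j = 0}`, `u_i = 1`; this is a formula of `Γ_{t,1}`, with the same parameter.
So the answers to such questions for a decreasing sequence of vectors are sorted, and an excluded
sorted vector removes one of the prefixes which are candidates for prefixes of the largest satisfying
assignment of weight `k`. In this way at most `m` prefixes of every length remain.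
-/

set_option autoImplicit false

namespace Pool.Agent.Results.MP_39539f_lc.SortedExclusion

open Pool.Agent.TH762.FP Pool.Agent.TH762.WT

/-- **Collapse of the weighted satisfiability hierarchy and exclusion of sorted vectors.** For every
`t` (the class is `Γ_{t+2,1}`) the following are equivalent: `p-WSAT(Γ_{t+2,1})` reduces to
`p-WSAT(Γ_{1,1})`; it is fixed-parameter tractable; it reduces to a problem for which a fixed-parameter
algorithm can exclude one of the `m + 1` sorted vectors as the vector of the answers for `m (n, κ)`
instances; the same for one of the `m + 1` possible numbers of yes-instances; the same for finding the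
number of yes-instances with `⌊log₂ m⌋` questions to an oracle. -/
theorem result (t : ℕ) : List.TFAE
    [FptReduces (PWSat (t + 2)) (PWSat 1),
      InFPT (PWSat (t + 2)),
      ∃ A : Set (List Bool × ℕ), FptReduces (PWSat (t + 2)) A ∧ FptFeasible (ExcludeSorted A),
      ∃ A : Set (List Bool × ℕ), FptReduces (PWSat (t + 2)) A ∧ FptFeasible (ExcludeCount A),
      ∃ A : Set (List Bool × ℕ), FptReduces (PWSat (t + 2)) A ∧ FptCountQuestions A] :=
  pwsat_law t

end Pool.Agent.Results.MP_39539f_lc.SortedExclusion
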