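import Pool.Agent.TH678.GS.Final

/-!
# All levels of the W-hierarchy are different relative to generic oracles

The classes `W[t]`, `t = 0, 1, 2, …`, are considered relative to oracles, where `W[0]` is `FPT`
(`InW`): after an fpt computation on the input there is a guess of `h k * log |x|` bits, then `t - 1`
alternating quantifiers over `log |x|` bits, and then a computation with at most `h k` questions of at
most `h k * log |x|` bits.

For every oracle `E` and all oracles `A` outside a set of the first category, relative to `E` and `A`
every level is strictly contained in the next one: the explicit problem `Hd t A`, which consists of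
`t + 1` alternating quantifiers in front of one literal, is in `W[t + 1]`, but not in `W[t]`. It is not
even in the nonuniform classes `InWide` with `t` alternating quantifiers (of either type), which all
range over `h k * log |x|` bits, as in the class `A[t]`, in front of a computation with
`h k * (log |x|) ^ h' k` questions. (Since `W[t + 1]` is contained in `InWide A true (t + 1)`, these
classes are all different as well.)

The proof uses the depth hierarchy theorem of the starting files (`H591R3/PHG`). The guess `w` hides
one forest of NOR gates from the fpt computation, which sees too few of the `|x| ^ k` blocks.
-/

set_option autoImplicit false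

namespace Pool.Agent.Results.MP_39539f_lc.StrictGenericOracles

open Pool.Agent.H620R2.Gauge Pool.Agent.TH678.GS

theorem result :
    (∀ (A : Oracle) (t : ℕ) (P : Set (List Bool × ℕ)), InW A t P →
      InW A (t + 1) P ∧ InWide A true t P) ∧
    ∀ E : Oracle, ∀ᶠ A in residual Oracle, ∀ t : ℕ,
      InW (join E A) (t + 1) (Hd t A) ∧ ∀ b : Bool, ¬ InWide (join E A) b t (Hd t A) :=
  ⟨fun _ _ _ h => ⟨inW_succ h, inW_wide h⟩, main⟩

end Pool.Agent.Results.MP_39539f_lc.StrictGenericOracles
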