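import Pool.Agent.TH683.WS.Fin

/-!
# The W-hierarchy is strict relative to random oracles with biased bits

The levels of the hierarchy of the parameterized weighted satisfiability problems are the classes
`W[t]`: `W[1]` for 2-CNF and `W[t]` for `Γ_{t,1}`, `t ≥ 2`. Relative to an oracle, `W[t]` is given
by a computation in time `f k * poly |x|`, then a guess of `h k * log |x|` bits, then `t - 1`
alternating quantifiers over strings of at most `log |x|` bits, the first one universal, and then at
most `h k` questions to the oracle of at most `h k * log |x|` bits.

Let the bits of the random oracle `A` be independent, with probability `1 / 2` for the strings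
`false :: z` and with probability `2 ^ (-n)` for the strings `true :: y`, where `y` is the pair of
the string of `n` ones and another string. Let `Q` be any oracle. Relative to `join Q A`, the
disjoint union, almost surely, for every `t ≥ 1`: `W[t]` is contained in `W[t + 1]`, and there is a
problem in `W[t + 1]` which is not even in the nonuniform versions of `W[t]` and `A[t]` (where all
the quantifiers are over strings of `g k * log |x|` bits). So every step is strict.
-/

set_option autoImplicit false

namespace Pool.Agent.Results.MP_39539f_lc.StrictHierarchy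

open MeasureTheory Pool.Agent.NPC Pool.Agent.H620R2.Gauge
open Pool.Agent.W900.IE (indep)
open Pool.Agent.TH678.HW (InW1 InW2 Tail)
open Pool.Agent.TH683.WH (Alt InW InWide)

/-- The probabilities of the bits: `1 / 2` for the strings which begin with `false`, and
`2 ^ (-n)` for the strings which consist of `true` and the pair of the string of `n` ones and
another string. -/
def Biased (p : List Bool → unitInterval) : Prop :=
  (∀ z, (p (false :: z) : ℝ) = 1 / 2) ∧
    ∀ n z, (p (true :: pairBits (List.replicate n true) z) : ℝ) = 1 / 2 ^ n

/-- The disjoint union of the oracles `Q` and `A`. -/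
def join (Q A : Oracle) : Oracle
  | [] => false
  | false :: z => Q z
  | true :: z => A z

theorem join_eq : TH680.OD.join = join := by
  funext Q A x
  rcases x with _ | ⟨b, z⟩
  · rfl
  · cases b <;> rfl

/-- The first level is the class `W[1]` of the earlier files. -/
theorem w1_iff (A : Oracle) (P : Set (List Bool × ℕ)) : InW A 1 P ↔ InW1 A P := Iff.rfl

/-- The second level is the class `W[2]` of the earlier files. -/
theorem w2_iff (A : Oracle) (P : Set (List Bool × ℕ)) : InW A 2 P ↔ InW2 A P := Iff.rfl

/-- `W[t]` is contained in the wide class. -/
theorem wide_of {A : Oracle} {t : ℕ} {P : Set (List Bool × ℕ)} (h : InW A t P) :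
    InWide A t P := by
  obtain ⟨π, h, R, M, _, _, hR, hP⟩ := h
  exact ⟨π, h, fun _ => 1, R, M, hR, fun x k => by rw [one_mul]; exact hP x k⟩

/-- **The W-hierarchy is strict relative to a random oracle with biased bits, together with any
oracle.** -/
theorem result : (∃ p, Biased p) ∧ ∀ p, Biased p → ∀ Q : Oracle, ∀ᵐ A ∂(indep p), ∀ t : ℕ, 1 ≤ t →
    (∀ P, InW (join Q A) t P → InW (join Q A) (t + 1) P) ∧
    ∃ P, InW (join Q A) (t + 1) P ∧ ¬ InW (join Q A) t P ∧ ¬ InWide (join Q A) t P := by
  refine ⟨⟨TH683.WS.pp, TH683.WS.pp_false, TH683.WS.pp_true⟩, fun p hp Q => ?_⟩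
  rw [← join_eq]
  filter_upwards [TH683.WS.main p hp.1 hp.2 Q] with A hA t ht
  obtain ⟨h1, P, h2, h3⟩ := hA t ht
  exact ⟨h1, P, h2, fun h4 => h3 (wide_of h4), h3⟩

end Pool.Agent.Results.MP_39539f_lc.StrictHierarchy
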